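import Mathlib

/-!
# Project MM, block B6, row K4: the pointwise matrix identity behind
`E tr (W'' N V'' N) = b + 2 p - q1 - q2`   [helper92]
-/

set_option autoImplicit false

open Matrix Finset

namespace MM92

variable {ι : Type*} [Fintype ι] [DecidableEq ι]

/-- the derivative of `C = τ B τ B τ` if `∂_j B = S j`, `∂_j τ = - τ (T j) τ` -/
def dC (τ B : Matrix ι ι ℝ) (S T : ι → Matrix ι ι ℝ) (j : ι) : Matrix ι ι ℝ :=
  τ * S j * τ * B * τ + τ * B * τ * S j * τ - τ * T j * (τ * B * τ * B * τ)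
    - τ * B * τ * T j * τ * B * τ - (τ * B * τ * B * τ) * T j * τ

/-- `p = Σ τ_ij tr (S_i τ T_j τ B τ)` -/
def pI (τ B : Matrix ι ι ℝ) (S T : ι → Matrix ι ι ℝ) : ℝ :=
  ∑ i, ∑ j, τ i j * trace (S i * τ * T j * τ * B * τ)

/-- `q₁ = Σ τ_ij tr (T_i τ T_j τ B τ B τ)` -/
def q1I (τ B : Matrix ι ι ℝ) (T : ι → Matrix ι ι ℝ) : ℝ :=
  ∑ i, ∑ j, τ i j * trace (T i * τ * T j * τ * B * τ * B * τ)

/-- `q₂ = Σ τ_ij tr (T_i τ B τ T_j τ B τ)` -/
def q2I (τ B : Matrix ι ι ℝ) (T : ι → Matrix ι ι ℝ) : ℝ :=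
  ∑ i, ∑ j, τ i j * trace (T i * τ * B * τ * T j * τ * B * τ)

/-- `b = tr (τ B τ B)` -/
def bI (τ B : Matrix ι ι ℝ) : ℝ := trace (τ * B * τ * B)

omit [DecidableEq ι] in
theorem swap_sum (τ : Matrix ι ι ℝ) (hτ : τᵀ = τ) (f : ι → ι → ℝ) :
    ∑ i, ∑ j, τ i j * f i j = ∑ i, ∑ j, τ i j * f j i := by
  rw [Finset.sum_comm]
  refine Finset.sum_congr rfl fun j _ => Finset.sum_congr rfl fun i _ => ?_
  have : τ i j = τ j i := by
    have := congrFun (congrFun hτ j) i
    simpa [Matrix.transpose_apply] using this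
  rw [this]

omit [DecidableEq ι] in
theorem trace_dC (τ B : Matrix ι ι ℝ) (S T : ι → Matrix ι ι ℝ) (hτ : τᵀ = τ) (hB : Bᵀ = B)
    (hS : ∀ i, (S i)ᵀ = S i) (hT : ∀ i, (T i)ᵀ = T i) :
    ∑ i, ∑ j, τ i j * trace (T i * dC τ B S T j) =
      2 * pI τ B S T - 2 * q1I τ B T - q2I τ B T := by
  have e : ∀ i j, trace (T i * dC τ B S T j) =
      trace (S j * τ * T i * τ * B * τ) + trace (S j * τ * T i * τ * B * τ)
      - trace (T i * τ * T j * τ * B * τ * B * τ) - trace (T i * τ * B * τ * T j * τ * B * τ)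
      - trace (T j * τ * T i * τ * B * τ * B * τ) := by
    intro i j
    have h1 : trace (T i * (τ * S j * τ * B * τ)) = trace (S j * τ * T i * τ * B * τ) := by
      have : T i * (τ * S j * τ * B * τ) = (τ * B * τ * S j * τ * T i)ᵀ := by
        simp only [Matrix.transpose_mul, hτ, hB, hS, hT, Matrix.mul_assoc]
      rw [this, Matrix.trace_transpose]
      have h : τ * B * τ * S j * τ * T i = (τ * B * τ) * (S j * τ * T i) := by
        simp only [Matrix.mul_assoc]
      rw [h, Matrix.trace_mul_comm]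
      simp only [Matrix.mul_assoc]
    have h2 : trace (T i * (τ * B * τ * S j * τ)) = trace (S j * τ * T i * τ * B * τ) := by
      have h : T i * (τ * B * τ * S j * τ) = (T i * τ * B * τ) * (S j * τ) := by
        simp only [Matrix.mul_assoc]
      rw [h, Matrix.trace_mul_comm]
      simp only [Matrix.mul_assoc]
    have h3 : trace (T i * (τ * T j * (τ * B * τ * B * τ))) =
        trace (T i * τ * T j * τ * B * τ * B * τ) := by
      simp only [Matrix.mul_assoc]
    have h4 : trace (T i * (τ * B * τ * T j * τ * B * τ)) =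
        trace (T i * τ * B * τ * T j * τ * B * τ) := by
      simp only [Matrix.mul_assoc]
    have h5 : trace (T i * ((τ * B * τ * B * τ) * T j * τ)) =
        trace (T j * τ * T i * τ * B * τ * B * τ) := by
      have h : T i * ((τ * B * τ * B * τ) * T j * τ) = (T i * τ * B * τ * B * τ) * (T j * τ) := by
        simp only [Matrix.mul_assoc]
      rw [h, Matrix.trace_mul_comm]
      simp only [Matrix.mul_assoc]
    unfold dC
    rw [Matrix.mul_sub, Matrix.mul_sub, Matrix.mul_sub, Matrix.mul_add, Matrix.trace_sub,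
      Matrix.trace_sub, Matrix.trace_sub, Matrix.trace_add, h1, h2, h3, h4, h5]
  have e1 : ∑ i, ∑ j, τ i j * trace (S j * τ * T i * τ * B * τ) = pI τ B S T := by
    unfold pI
    exact swap_sum τ hτ fun i j => trace (S j * τ * T i * τ * B * τ)
  have e2 : ∑ i, ∑ j, τ i j * trace (T j * τ * T i * τ * B * τ * B * τ) = q1I τ B T := by
    unfold q1I
    exact swap_sum τ hτ fun i j => trace (T j * τ * T i * τ * B * τ * B * τ)
  calc ∑ i, ∑ j, τ i j * trace (T i * dC τ B S T j)
      = (∑ i, ∑ j, τ i j * trace (S j * τ * T i * τ * B * τ)) +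
        (∑ i, ∑ j, τ i j * trace (S j * τ * T i * τ * B * τ)) - q1I τ B T - q2I τ B T -
        (∑ i, ∑ j, τ i j * trace (T j * τ * T i * τ * B * τ * B * τ)) := by
        unfold q1I q2I
        simp only [← Finset.sum_add_distrib, ← Finset.sum_sub_distrib]
        refine Finset.sum_congr rfl fun i _ => Finset.sum_congr rfl fun j _ => ?_
        rw [e]
        ring
    _ = 2 * pI τ B S T - 2 * q1I τ B T - q2I τ B T := by
        rw [e1, e2]
        ring

omit [DecidableEq ι] in
/-- the entries of `H` -/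
theorem H_entry (τ : Matrix ι ι ℝ) (T : ι → Matrix ι ι ℝ)
    (hT2 : ∀ i k l, T i k l = T k i l) (hT : ∀ i, (T i)ᵀ = T i) (hτ : τᵀ = τ) (k l : ι) :
    trace (τ * T k * τ * T l) = ∑ i, ∑ j, τ i j * (T i * τ * T j) k l := by
  have hs : ∀ i a b, T i a b = T i b a := fun i a b => by
    have := congrFun (congrFun (hT i) b) a
    simpa [Matrix.transpose_apply] using this
  have hτs : ∀ a b, τ a b = τ b a := fun a b => by
    have := congrFun (congrFun hτ b) a
    simpa [Matrix.transpose_apply] using this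
  have h1 : trace (τ * T k * τ * T l) = ∑ j, ∑ i, τ j i * (T k * τ * T l) i j := by
    have : τ * T k * τ * T l = τ * (T k * τ * T l) := by simp only [Matrix.mul_assoc]
    rw [this]
    simp only [Matrix.trace, Matrix.diag_apply, Matrix.mul_apply (M := τ)]
  rw [h1, Finset.sum_comm]
  refine Finset.sum_congr rfl fun i _ => Finset.sum_congr rfl fun j _ => ?_
  rw [hτs j i]
  congr 1
  simp only [Matrix.mul_apply]
  refine Finset.sum_congr rfl fun c _ => ?_
  rw [Finset.sum_mul, Finset.sum_mul]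
  refine Finset.sum_congr rfl fun b _ => ?_
  rw [hT2 k i b, hs l c j, hT2 l j c, hs j l c]

omit [DecidableEq ι] in
/-- `H_kl = tr (τ T_k τ T_l)` paired with a matrix -/
theorem trace_H (τ C : Matrix ι ι ℝ) (T : ι → Matrix ι ι ℝ)
    (hT2 : ∀ i k l, T i k l = T k i l) (hT : ∀ i, (T i)ᵀ = T i) (hτ : τᵀ = τ) :
    trace (Matrix.of (fun k l => trace (τ * T k * τ * T l)) * C) =
      ∑ i, ∑ j, τ i j * trace (T i * τ * T j * C) := by
  have h1 : Matrix.of (fun k l => trace (τ * T k * τ * T l)) =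
      ∑ i, ∑ j, τ i j • (T i * τ * T j) := by
    ext k l
    rw [Matrix.of_apply, H_entry τ T hT2 hT hτ k l]
    simp only [Matrix.sum_apply, Matrix.smul_apply, smul_eq_mul]
  rw [h1, Finset.sum_mul, Matrix.trace_sum]
  refine Finset.sum_congr rfl fun i _ => ?_
  rw [Finset.sum_mul, Matrix.trace_sum]
  refine Finset.sum_congr rfl fun j _ => ?_
  rw [Matrix.smul_mul, Matrix.trace_smul, smul_eq_mul]

omit [DecidableEq ι] in
/-- `τ : U` paired with a matrix -/
theorem trace_U (τ C : Matrix ι ι ℝ) (U : ι → ι → Matrix ι ι ℝ)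
    (hU : ∀ i j k l, U i j k l = U k l i j) (hτ : τᵀ = τ) :
    trace (Matrix.of (fun k l => trace (τ * U k l)) * C) =
      ∑ i, ∑ j, τ i j * trace (U i j * C) := by
  have hτs : ∀ a b, τ a b = τ b a := fun a b => by
    have := congrFun (congrFun hτ b) a
    simpa [Matrix.transpose_apply] using this
  have h1 : Matrix.of (fun k l => trace (τ * U k l)) = ∑ i, ∑ j, τ i j • (U i j) := by
    ext k l
    rw [Matrix.of_apply]
    simp only [Matrix.sum_apply, Matrix.smul_apply, smul_eq_mul, Matrix.trace,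
      Matrix.diag_apply, Matrix.mul_apply]
    rw [Finset.sum_comm]
    refine Finset.sum_congr rfl fun i _ => Finset.sum_congr rfl fun j _ => ?_
    rw [hτs j i, hU k l i j]
  rw [h1, Finset.sum_mul, Matrix.trace_sum]
  refine Finset.sum_congr rfl fun i _ => ?_
  rw [Finset.sum_mul, Matrix.trace_sum]
  refine Finset.sum_congr rfl fun j _ => ?_
  rw [Matrix.smul_mul, Matrix.trace_smul, smul_eq_mul]

/-- `Σ_j (∂_j τ_ij - τ_ij W_j) = - x_i` -/
theorem div_tau (τ G : Matrix ι ι ℝ) (T : ι → Matrix ι ι ℝ) (X W1 : ι → ℝ)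
    (hG : τ * G = 1) (hGt : Gᵀ = G) (hT2 : ∀ i k l, T i k l = T k i l)
    (hT : ∀ i, (T i)ᵀ = T i) (hτ : τᵀ = τ)
    (hW : ∀ k, W1 k = ∑ i, X i * G i k - trace (τ * T k)) (i : ι) :
    ∑ j, (-(τ * T j * τ) i j - τ i j * W1 j) = - X i := by
  have hs : ∀ i a b, T i a b = T i b a := fun i a b => by
    have := congrFun (congrFun (hT i) b) a
    simpa [Matrix.transpose_apply] using this
  have hτs : ∀ a b, τ a b = τ b a := fun a b => by
    have := congrFun (congrFun hτ b) a
    simpa [Matrix.transpose_apply] using this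
  have hGs : ∀ a b, G a b = G b a := fun a b => by
    have := congrFun (congrFun hGt b) a
    simpa [Matrix.transpose_apply] using this
  have h1 : ∑ j, (τ * T j * τ) i j = ∑ j, τ i j * trace (τ * T j) := by
    have h2 : ∀ j, (τ * T j * τ) i j = ∑ a, τ i a * ∑ b, T j a b * τ b j := by
      intro j
      rw [Matrix.mul_assoc, Matrix.mul_apply]
      refine Finset.sum_congr rfl fun a _ => ?_
      rw [Matrix.mul_apply]
    simp only [h2]
    rw [Finset.sum_comm]
    refine Finset.sum_congr rfl fun a _ => ?_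
    rw [← Finset.mul_sum]
    congr 1
    simp only [Matrix.trace, Matrix.diag_apply, Matrix.mul_apply]
    refine Finset.sum_congr rfl fun j _ => Finset.sum_congr rfl fun b _ => ?_
    rw [hT2 j a b, hs a j b, hτs b j]
    ring
  have h3 : ∑ j, τ i j * (∑ k, X k * G k j) = X i := by
    have : ∀ j, τ i j * (∑ k, X k * G k j) = ∑ k, X k * (τ i j * G j k) := by
      intro j
      rw [Finset.mul_sum]
      refine Finset.sum_congr rfl fun k _ => ?_
      rw [hGs k j]
      ring
    simp only [this]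
    rw [Finset.sum_comm]
    have h4 : ∀ k, ∑ j, X k * (τ i j * G j k) = X k * (1 : Matrix ι ι ℝ) i k := by
      intro k
      rw [← Finset.mul_sum, ← Matrix.mul_apply, hG]
    simp only [h4, Matrix.one_apply]
    simp
  simp only [hW, mul_sub]
  rw [Finset.sum_sub_distrib, Finset.sum_neg_distrib, Finset.sum_sub_distrib, h1, h3]
  ring

/-- the pointwise identity: `tr (W'' C) + div*-term = b + 2 p - q₁ - q₂`,
`Z_j = Σ_i τ_ij tr (T_i C)` and `Zp_j = ∂_j Z_j` -/
theorem pointwise (τ G B : Matrix ι ι ℝ) (T S : ι → Matrix ι ι ℝ) (U : ι → ι → Matrix ι ι ℝ)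
    (X W1 : ι → ℝ) (W2 : Matrix ι ι ℝ)
    (hG : τ * G = 1) (hGt : Gᵀ = G) (hτ : τᵀ = τ) (hB : Bᵀ = B)
    (hT2 : ∀ i k l, T i k l = T k i l) (hT : ∀ i, (T i)ᵀ = T i) (hS : ∀ i, (S i)ᵀ = S i)
    (hU : ∀ i j k l, U i j k l = U k l i j)
    (hW : ∀ k, W1 k = ∑ i, X i * G i k - trace (τ * T k))
    (hW2 : ∀ k l, W2 k l = G k l - trace (τ * U k l) + ∑ i, X i * T i k l +
      trace (τ * T k * τ * T l)) :
    trace (W2 * (τ * B * τ * B * τ)) +
      ∑ j, ((∑ i, (-(τ * T j * τ) i j * trace (T i * (τ * B * τ * B * τ)) +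
          τ i j * (trace (U i j * (τ * B * τ * B * τ)) + trace (T i * dC τ B S T j)))) -
        W1 j * ∑ i, τ i j * trace (T i * (τ * B * τ * B * τ))) =
      bI τ B + 2 * pI τ B S T - q1I τ B T - q2I τ B T := by
  set C := τ * B * τ * B * τ with hC
  have hW2' : W2 = G - Matrix.of (fun k l => trace (τ * U k l)) + ∑ i, X i • T i +
      Matrix.of (fun k l => trace (τ * T k * τ * T l)) := by
    ext k l
    simp only [Matrix.add_apply, Matrix.sub_apply, Matrix.of_apply, Matrix.sum_apply,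
      Matrix.smul_apply, smul_eq_mul, hW2]
  have h1 : trace (G * C) = bI τ B := by
    have hG' : G * τ = 1 := mul_eq_one_comm.mp hG
    have : G * C = B * τ * B * τ := by
      rw [hC]
      have : G * (τ * B * τ * B * τ) = (G * τ) * (B * τ * B * τ) := by
        simp only [Matrix.mul_assoc]
      rw [this, hG', Matrix.one_mul]
    rw [this, bI, Matrix.trace_mul_comm]
    simp only [Matrix.mul_assoc]
  have h2 : trace (W2 * C) = bI τ B - ∑ i, ∑ j, τ i j * trace (U i j * C) +
      ∑ i, X i * trace (T i * C) + ∑ i, ∑ j, τ i j * trace (T i * τ * T j * C) := by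
    rw [hW2', Matrix.add_mul, Matrix.add_mul, Matrix.sub_mul, Matrix.trace_add,
      Matrix.trace_add, Matrix.trace_sub, h1, trace_U τ C U hU hτ, trace_H τ C T hT2 hT hτ,
      Finset.sum_mul, Matrix.trace_sum]
    simp only [Matrix.smul_mul, Matrix.trace_smul, smul_eq_mul]
  have h3 : ∑ i, ∑ j, τ i j * trace (T i * τ * T j * C) = q1I τ B T := by
    unfold q1I
    refine Finset.sum_congr rfl fun i _ => Finset.sum_congr rfl fun j _ => ?_
    rw [hC]
    simp only [Matrix.mul_assoc]
  have h4 : ∑ j, ((∑ i, (-(τ * T j * τ) i j * trace (T i * C) +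
          τ i j * (trace (U i j * C) + trace (T i * dC τ B S T j)))) -
        W1 j * ∑ i, τ i j * trace (T i * C)) =
      -(∑ i, X i * trace (T i * C)) + ∑ i, ∑ j, τ i j * trace (U i j * C) +
        ∑ i, ∑ j, τ i j * trace (T i * dC τ B S T j) := by
    have e1 : ∀ j, ((∑ i, (-(τ * T j * τ) i j * trace (T i * C) +
          τ i j * (trace (U i j * C) + trace (T i * dC τ B S T j)))) -
        W1 j * ∑ i, τ i j * trace (T i * C)) =
        ∑ i, ((-(τ * T j * τ) i j - τ i j * W1 j) * trace (T i * C) +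
          τ i j * trace (U i j * C) + τ i j * trace (T i * dC τ B S T j)) := by
      intro j
      rw [Finset.mul_sum, ← Finset.sum_sub_distrib]
      refine Finset.sum_congr rfl fun i _ => ?_
      ring
    simp only [e1]
    rw [Finset.sum_comm]
    simp only [Finset.sum_add_distrib]
    congr 2
    rw [← Finset.sum_neg_distrib]
    refine Finset.sum_congr rfl fun i _ => ?_
    rw [← Finset.sum_mul, div_tau τ G T X W1 hG hGt hT2 hT hτ hW i]
    ring
  rw [h4, h2, h3, trace_dC τ B S T hτ hB hS hT]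
  ring

end MM92
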