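import Pool.Agent.Helper2.MM.Data
import Pool.Agent.Helper92.MM.K4A

/-!
# Project MM, block B6, row K4: `E tr (W'' N V'' N) = b + 2 p - q1 - q2`   [helper92]
-/

open MeasureTheory Matrix

namespace MM92

open Pool.Agent.Helper2.MM

variable {E ι : Type*} [NormedAddCommGroup E] [NormedSpace ℝ E] [Fintype ι] [DecidableEq ι]
  {D : VJet E ι} (H : HJet D)

/-- `D_j C` -/
theorem PDM_C (j : ι) : PDM (D.e j) H.C
    (fun x => dC (D.τ x) (H.B x) (fun i => H.S i x) (fun i => D.T i x) j) := by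
  have h := ((((D.dτ j).mul (H.dB j)).mul (D.dτ j)).mul (H.dB j)).mul (D.dτ j)
  refine h.congr (fun x => rfl) (fun x => ?_)
  unfold dC
  simp only [Matrix.add_mul, Matrix.mul_neg, Matrix.neg_mul, Matrix.mul_assoc]
  abel

/-- `Z_j = Σ_i τ_ij tr (T_i C)` -/
def Z (j : ι) (x : E) : ℝ := ∑ i, D.τ x i j * trace (D.T i x * H.C x)

/-- `D_j Z_j` -/
def Z1 (j : ι) (x : E) : ℝ :=
  ∑ i, (-(D.τ x * D.T j x * D.τ x) i j * trace (D.T i x * H.C x) +
    D.τ x i j * (trace (D.U i j x * H.C x) +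
      trace (D.T i x * dC (D.τ x) (H.B x) (fun i => H.S i x) (fun i => D.T i x) j)))

theorem PD_Z (j : ι) : PD (D.e j) (Z H j) (Z1 H j) := by
  unfold Z Z1
  refine PD.sum _ (fun i _ => ?_)
  refine ((D.dτ j i j).mul (((D.dT i j).mul (PDM_C H j)).trace)).congr' (fun x => ?_)
  rw [Matrix.trace_add]
  rfl

theorem cZ (j : ι) : Continuous (Z H j) := by
  unfold Z
  exact continuous_finsetSum _ (fun i _ => (D.cτ i j).mul ((D.cT i).mul H.cC).trace)

theorem cdC (j : ι) : CMat (fun x => dC (D.τ x) (H.B x) (fun i => H.S i x)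
    (fun i => D.T i x) j) := by
  unfold dC
  have c := H.cC
  have c' : CMat (fun x => D.τ x * H.B x * D.τ x * H.B x * D.τ x) := c
  exact (((((((D.cτ.mul (H.cS j)).mul D.cτ).mul H.cB).mul D.cτ).add
    ((((D.cτ.mul H.cB).mul D.cτ).mul (H.cS j)).mul D.cτ)).sub
    ((D.cτ.mul (D.cT j)).mul c')).sub
    ((((((D.cτ.mul H.cB).mul D.cτ).mul (D.cT j)).mul D.cτ).mul H.cB).mul D.cτ)).sub
    ((c'.mul (D.cT j)).mul D.cτ)

theorem cZ1 (j : ι) : Continuous (Z1 H j) := by
  unfold Z1
  refine continuous_finsetSum _ (fun i _ => ?_)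
  have h1 : Continuous fun x => (D.τ x * D.T j x * D.τ x) i j :=
    ((D.cτ.mul (D.cT j)).mul D.cτ) i j
  exact (h1.neg.mul ((D.cT i).mul H.cC).trace).add
    ((D.cτ i j).mul ((((D.cU i j).mul H.cC).trace).add (((D.cT i).mul (cdC H j)).trace)))

theorem sZ (j : ι) : HasCompactSupport (Z H j) := by
  unfold Z
  exact HasCompactSupport.fsum _ (fun i _ => (SMat.trace (SMat.mul_left H.sC)).mul_left)

/-- the pointwise identity in the data of the jets -/
theorem pointwise_jet (x : E) :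
    H.ww x + ∑ j, (Z1 H j x - D.W1 j x * Z H j x) = H.bb x + 2 * H.pp x - H.q1 x - H.q2 x := by
  have hU : ∀ i j k l, D.U i j x k l = D.U k l x i j := by
    intro i j k l
    rw [D.Usym'' i j x k l, D.Usym' i k x j l, D.Usym k i x j l, D.Usym'' k i x l j]
  have h := pointwise (D.τ x) (D.G x) (H.B x) (fun i => D.T i x) (fun i => H.S i x)
    (fun i j => D.U i j x) (fun i => D.X i x) (fun i => D.W1 i x) (D.W2 x) (D.tg x) (D.GT x)
    (D.τT x) (H.BT x) (fun i k l => D.Tsym' i x k l) (fun i => D.TT i x) (fun i => H.ST i x)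
    hU (fun k => D.W1_eq k x) (fun k l => by
      rw [D.W2_eq]
      have : (D.τ x * D.T l x * D.τ x * D.T k x).trace =
          (D.τ x * D.T k x * D.τ x * D.T l x).trace := by
        have e : D.τ x * D.T l x * D.τ x * D.T k x = (D.τ x * D.T l x) * (D.τ x * D.T k x) := by
          simp only [Matrix.mul_assoc]
        rw [e, Matrix.trace_mul_comm]
        simp only [Matrix.mul_assoc]
      rw [this]
      ring)
  have e1 : pI (D.τ x) (H.B x) (fun i => H.S i x) (fun i => D.T i x) = H.pp x := by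
    unfold pI HJet.pp HJet.N
    simp only [Matrix.mul_assoc]
  have e2 : q1I (D.τ x) (H.B x) (fun i => D.T i x) = H.q1 x := by
    unfold q1I HJet.q1 HJet.C
    simp only [Matrix.mul_assoc]
  have e3 : q2I (D.τ x) (H.B x) (fun i => D.T i x) = H.q2 x := by
    unfold q2I HJet.q2 HJet.N
    simp only [Matrix.mul_assoc]
  have e4 : bI (D.τ x) (H.B x) = H.bb x := rfl
  rw [e1, e2, e3, e4] at h
  exact h

theorem cww : Continuous H.ww := (D.cW2.mul H.cC).trace
theorem sww : HasCompactSupport H.ww := SMat.trace (SMat.mul_left H.sC)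

theorem cbb : Continuous H.bb := (((D.cτ.mul H.cB).mul D.cτ).mul H.cB).trace
theorem sbb : HasCompactSupport H.bb := SMat.trace (SMat.mul_left H.sB)

theorem cpp : Continuous H.pp := by
  unfold HJet.pp
  exact continuous_finsetSum _ (fun i _ => continuous_finsetSum _ (fun j _ =>
    (D.cτ i j).mul (((((H.cS i).mul D.cτ).mul (D.cT j)).mul H.cN).trace)))
theorem spp : HasCompactSupport H.pp := by
  unfold HJet.pp
  exact HasCompactSupport.fsum _ (fun i _ => HasCompactSupport.fsum _ (fun j _ =>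
    (SMat.trace (SMat.mul_left H.sN)).mul_left))

theorem cq1 : Continuous H.q1 := by
  unfold HJet.q1
  exact continuous_finsetSum _ (fun i _ => continuous_finsetSum _ (fun j _ =>
    (D.cτ i j).mul (((((D.cT i).mul D.cτ).mul (D.cT j)).mul H.cC).trace)))
theorem sq1 : HasCompactSupport H.q1 := by
  unfold HJet.q1
  exact HasCompactSupport.fsum _ (fun i _ => HasCompactSupport.fsum _ (fun j _ =>
    (SMat.trace (SMat.mul_left H.sC)).mul_left))

theorem cq2 : Continuous H.q2 := by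
  unfold HJet.q2
  exact continuous_finsetSum _ (fun i _ => continuous_finsetSum _ (fun j _ =>
    (D.cτ i j).mul (((((D.cT i).mul H.cN).mul (D.cT j)).mul H.cN).trace)))
theorem sq2 : HasCompactSupport H.q2 := by
  unfold HJet.q2
  exact HasCompactSupport.fsum _ (fun i _ => HasCompactSupport.fsum _ (fun j _ =>
    (SMat.trace (SMat.mul_left H.sN)).mul_left))

variable [FiniteDimensional ℝ E] [MeasurableSpace E] [BorelSpace E]
  (μ : Measure E) [μ.IsAddHaarMeasure]

/-- K4: `w = b + 2 p - q1 - q2` -/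
theorem K4 : D.Ex μ H.ww = D.Ex μ H.bb + 2 * D.Ex μ H.pp - D.Ex μ H.q1 - D.Ex μ H.q2 := by
  have h0 : ∀ j, D.Ex μ (fun x => Z1 H j x - D.W1 j x * Z H j x) = 0 := fun j =>
    ibp_div (D.dW j) D.cW (D.cW1 j) (PD_Z H j) (cZ H j) (cZ1 H j) (sZ H j)
  have cj : ∀ j, Continuous (fun x => Z1 H j x - D.W1 j x * Z H j x) := fun j =>
    (cZ1 H j).sub ((D.cW1 j).mul (cZ H j))
  have sj : ∀ j, HasCompactSupport (fun x => Z1 H j x - D.W1 j x * Z H j x) := fun j =>
    ((PD_Z H j).hasCompactSupport (sZ H j)).sub (sZ H j).mul_left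
  have h1 : D.Ex μ (fun x => ∑ j, (Z1 H j x - D.W1 j x * Z H j x)) = 0 := by
    rw [D.Ex_sum (F := fun j x => Z1 H j x - D.W1 j x * Z H j x) Finset.univ
      (fun j _ => cj j) (fun j _ => sj j)]
    exact Finset.sum_eq_zero fun j _ => h0 j
  have h2 : D.Ex μ (fun x => H.ww x + ∑ j, (Z1 H j x - D.W1 j x * Z H j x)) = D.Ex μ H.ww := by
    rw [D.Ex_add (F := H.ww) (F' := fun x => ∑ j, (Z1 H j x - D.W1 j x * Z H j x)) (cww H)
      (sww H) (continuous_finsetSum _ fun j _ => cj j) (HasCompactSupport.fsum _ fun j _ => sj j),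
      h1, add_zero]
  have h3 : D.Ex μ (fun x => H.bb x + 2 * H.pp x - H.q1 x - H.q2 x) =
      D.Ex μ H.bb + 2 * D.Ex μ H.pp - D.Ex μ H.q1 - D.Ex μ H.q2 := by
    have c2 : Continuous (fun x => 2 * H.pp x) := (cpp H).const_mul 2
    have s2 : HasCompactSupport (fun x => 2 * H.pp x) :=
      HasCompactSupport.mul_left (f := fun _ => (2 : ℝ)) (spp H)
    rw [D.Ex_sub (F := fun x => H.bb x + 2 * H.pp x - H.q1 x) (F' := H.q2)
      (((cbb H).add c2).sub (cq1 H)) (((sbb H).add s2).sub (sq1 H)) (cq2 H) (sq2 H),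
      D.Ex_sub (F := fun x => H.bb x + 2 * H.pp x) (F' := H.q1)
      ((cbb H).add c2) ((sbb H).add s2) (cq1 H) (sq1 H),
      D.Ex_add (F := H.bb) (F' := fun x => 2 * H.pp x) (cbb H) (sbb H) c2 s2,
      D.Ex_const_mul]
  rw [← h2, ← h3]
  exact D.Ex_congr (pointwise_jet H)

end MM92
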