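import Pool.Agent.Helper63.MM.Inv
import Pool.Agent.Helper2.MM.Data

/-!
# Project MM, block B6, row K6, first part: the jet of the potential   [helper92]
-/

open MeasureTheory

namespace MM92

open CM CM.H63 Pool.Agent.Helper2.MM

variable {n : ℕ}

theorem PD_pd {f : E n → ℝ} (hf : Differentiable ℝ f) (i : Fin n) :
    PD (EuclideanSpace.single i (1 : ℝ)) f (pd i f) := PD.of_differentiable hf _

theorem pd_of_PD {f f' : E n → ℝ} (hf : Differentiable ℝ f) {i : Fin n}
    (h : PD (EuclideanSpace.single i (1 : ℝ)) f f') : pd i f = f' :=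
  (PD_pd hf i).unique h

theorem hess_symm {f : E n → ℝ} (hf : ContDiff ℝ 2 f) (x : E n) (i j : Fin n) :
    hess f x i j = hess f x j i := by
  unfold hess
  rw [Matrix.of_apply, Matrix.of_apply, pd_comm hf]

theorem posDef_hess {f : E n → ℝ} (hf : ContDiff ℝ 2 f) {a : ℝ} (ha : 0 < a) (x : E n)
    (h : LB a (hess f x)) : (hess f x).PosDef := by
  refine Matrix.PosDef.of_dotProduct_mulVec_pos ?_ fun v hv => ?_
  · ext i j
    rw [Matrix.conjTranspose_apply, star_trivial, hess_symm hf]
  · have h1 := h v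
    have h2 : 0 < ∑ i, v i ^ 2 := by
      by_contra hn
      apply hv
      have h3 : ∑ i, v i ^ 2 = 0 := le_antisymm (not_lt.1 hn)
        (Finset.sum_nonneg fun i _ => sq_nonneg _)
      rw [Finset.sum_eq_zero_iff_of_nonneg fun i _ => sq_nonneg _] at h3
      funext i
      exact pow_eq_zero_iff (two_ne_zero) |>.1 (h3 i (Finset.mem_univ i))
    have h3 : star v ⬝ᵥ Matrix.mulVec (hess f x) v = ∑ i, ∑ j, v i * hess f x i j * v j := by
      simp only [dotProduct, Matrix.mulVec, star_trivial, Finset.mul_sum, mul_assoc]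
    rw [h3]
    exact lt_of_lt_of_le (mul_pos ha h2) h1

theorem det_hess_ne {f : E n → ℝ} (hf : ContDiff ℝ 2 f) {a : ℝ} (ha : 0 < a)
    (h : ∀ x, LB a (hess f x)) (x : E n) : (hess f x).det ≠ 0 :=
  (posDef_hess hf ha x (h x)).det_pos.ne'

variable {V : E n → ℝ} (h5 : ContDiff ℝ 5 V) {a : ℝ} (ha : 0 < a) (hV : ∀ x, LB a (hess V x))

include h5 in
theorem c2V : ContDiff ℝ 2 V := h5.of_le (by norm_num)

include h5 in
theorem cd1 (i : Fin n) : ContDiff ℝ (4 : ℕ) (pd i V) := contDiff_pd (k := 4) (by exact_mod_cast h5) i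

include h5 in
theorem cd2 (i j : Fin n) : ContDiff ℝ (3 : ℕ) (pd i (pd j V)) :=
  contDiff_pd (k := 3) (by exact_mod_cast cd1 h5 j) i

include h5 in
theorem cd3 (i j k : Fin n) : ContDiff ℝ (2 : ℕ) (pd i (pd j (pd k V))) :=
  contDiff_pd (k := 2) (by exact_mod_cast cd2 h5 j k) i

include h5 in
theorem cd4 (i j k l : Fin n) : ContDiff ℝ (1 : ℕ) (pd i (pd j (pd k (pd l V)))) :=
  contDiff_pd (k := 1) (by exact_mod_cast cd3 h5 j k l) i

include h5 ha hV in
theorem cdτ (i j : Fin n) : ContDiff ℝ (3 : ℕ) (fun x => tau V x i j) :=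
  contDiff_inv (k := 3) (G := hess V) (fun i j => cd2 h5 i j) (det_hess_ne (c2V h5) ha hV) i j

include h5 in
theorem contDiff_eul : ContDiff ℝ (4 : ℕ) (eul V) := by
  have e : eul V = fun x => ∑ i, x i * pd i V x := funext fun x => eul_eq_sum V x
  rw [e]
  exact ContDiff.sum fun i _ => (EuclideanSpace.proj (𝕜 := ℝ) i : E n →L[ℝ] ℝ).contDiff.mul
    (cd1 h5 i)

include h5 in
theorem contDiff_deth : ContDiff ℝ (3 : ℕ) (fun x => (hess V x).det) :=
  contDiff_det (k := 3) (G := hess V) fun i j => cd2 h5 i j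

include h5 ha hV in
theorem contDiff_WW : ContDiff ℝ (3 : ℕ) (WW V) := by
  unfold WW
  have h1 : ContDiff ℝ (3 : ℕ) (eul V) := (contDiff_eul h5).of_le (by norm_cast)
  have h2 : ContDiff ℝ (3 : ℕ) V := h5.of_le (by norm_num)
  exact (h1.sub h2).sub ((contDiff_deth h5).log (det_hess_ne (c2V h5) ha hV))

include h5 in
theorem pd_eul (k : Fin n) (x : E n) :
    pd k (eul V) x = pd k V x + ∑ i, x i * hess V x i k := by
  have e : eul V = fun x => ∑ i, x i * pd i V x := funext fun x => eul_eq_sum V x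
  have hc : ∀ i, DifferentiableAt ℝ (fun y : E n => y i) x := fun i =>
    (EuclideanSpace.proj (𝕜 := ℝ) i : E n →L[ℝ] ℝ).differentiableAt
  have hp : ∀ i, DifferentiableAt ℝ (pd i V) x := fun i =>
    ((cd1 h5 i).differentiable (by norm_num)) x
  rw [e, pd_sum Finset.univ (f := fun i y => y i * pd i V y) (fun i _ => (hc i).mul (hp i)) k]
  have h1 : ∀ i, pd k (fun y : E n => y i * pd i V y) x =
      (if k = i then 1 else 0) * pd i V x + x i * hess V x i k := by
    intro i
    rw [pd_mul (hc i) (hp i), pd_coord, hess_symm (c2V h5) x i k]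
    rfl
  simp only [h1, Finset.sum_add_distrib]
  simp

include h5 ha hV in
theorem pd_WW (k : Fin n) (x : E n) :
    pd k (WW V) x = ∑ i, x i * hess V x i k -
      (tau V x * Matrix.of fun a b => pd k (pd a (pd b V)) x).trace := by
  have d1 : DifferentiableAt ℝ (eul V) x := ((contDiff_eul h5).differentiable (by norm_num)) x
  have d2 : DifferentiableAt ℝ V x := (h5.differentiable (by norm_num)) x
  have d3 : DifferentiableAt ℝ (fun x => (hess V x).det) x :=
    ((contDiff_deth h5).differentiable (by norm_num)) x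
  have hne := det_hess_ne (c2V h5) ha hV
  have d4 : DifferentiableAt ℝ (fun x => Real.log (hess V x).det) x := d3.log (hne x)
  have d5 : ∀ i j, DifferentiableAt ℝ (fun y => hess V y i j) x := fun i j =>
    ((cd2 h5 i j).differentiable (by norm_num)) x
  have e1 : pd k (WW V) x = pd k (eul V) x - pd k V x -
      pd k (fun x => Real.log (hess V x).det) x := by
    have e2 : WW V = fun y => (fun z => eul V z - V z) y - Real.log (hess V y).det := rfl
    have d12 : DifferentiableAt ℝ (fun z => eul V z - V z) x := d1.sub d2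
    rw [e2, pd_sub d12 d4, pd_sub d1 d2]
  rw [e1, pd_eul h5, pd_logdet d5 d3 (hne x)]
  have e3 : ∑ i, ∑ b, (hess V x)⁻¹ i b * pd k (fun y => hess V y b i) x =
      (tau V x * Matrix.of fun a b => pd k (pd a (pd b V)) x).trace := by
    simp only [Matrix.trace, Matrix.diag_apply, Matrix.mul_apply, Matrix.of_apply]
    rfl
  rw [e3]
  ring

/-- the jet of the potential -/
noncomputable def vjet : VJet (E n) (Fin n) where
  e i := EuclideanSpace.single i (1 : ℝ)
  X i x := x i
  G := hess V
  τ := tau V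
  T i x := Matrix.of fun a b => pd i (pd a (pd b V)) x
  U i j x := Matrix.of fun a b => pd j (pd i (pd a (pd b V))) x
  W := WW V
  W1 i := pd i (WW V)
  W2 x := Matrix.of fun k l => hess V x k l +
    ∑ i, x i * (Matrix.of fun a b => pd i (pd a (pd b V)) x : Mt n) k l
    + (tau V x * (Matrix.of fun a b => pd l (pd a (pd b V)) x : Mt n) * tau V x *
        (Matrix.of fun a b => pd k (pd a (pd b V)) x : Mt n)).trace
    - (tau V x * (Matrix.of fun a b => pd l (pd k (pd a (pd b V))) x : Mt n)).trace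
  dX i j := by
    have h1 : Differentiable ℝ (fun y : E n => y i) :=
      (EuclideanSpace.proj (𝕜 := ℝ) i : E n →L[ℝ] ℝ).differentiable
    refine (PD_pd h1 j).congr' fun x => ?_
    rw [pd_coord]
    simp only [eq_comm]
  cX i := (EuclideanSpace.proj (𝕜 := ℝ) i : E n →L[ℝ] ℝ).continuous
  dG i a b := PD_pd ((cd2 h5 a b).differentiable (by norm_num)) i
  dT i j a b := PD_pd ((cd3 h5 i a b).differentiable (by norm_num)) j
  dτ i := by
    have hne := det_hess_ne (c2V h5) ha hV
    have hτ : PDM (EuclideanSpace.single i (1 : ℝ)) (tau V)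
        (fun x => Matrix.of fun a b => pd i (fun y => tau V y a b) x) := fun a b =>
      PD_pd ((cdτ h5 ha hV a b).differentiable (by norm_num)) i
    refine PDM.inv_of (G := hess V) (G' := fun x => Matrix.of fun a b => pd i (pd a (pd b V)) x)
      (fun a b => PD_pd ((cd2 h5 a b).differentiable (by norm_num)) i) hτ (fun x => ?_)
      (fun x => ?_)
    · exact Matrix.mul_nonsing_inv _ (IsUnit.mk0 _ (hne x))
    · exact Matrix.nonsing_inv_mul _ (IsUnit.mk0 _ (hne x))
  cG a b := (cd2 h5 a b).continuous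
  cτ a b := (cdτ h5 ha hV a b).continuous
  cT i a b := (cd3 h5 i a b).continuous
  cU i j a b := (cd4 h5 j i a b).continuous
  gt x := Matrix.mul_nonsing_inv _ (IsUnit.mk0 _ (det_hess_ne (c2V h5) ha hV x))
  tg x := Matrix.nonsing_inv_mul _ (IsUnit.mk0 _ (det_hess_ne (c2V h5) ha hV x))
  pd x := (posDef_hess (c2V h5) ha x (hV x)).inv.posSemidef
  Gsym x a b := hess_symm (c2V h5) x a b
  Tsym i x a b := by
    have e : CM.pd a (CM.pd b V) = CM.pd b (CM.pd a V) := funext fun y => pd_comm (c2V h5) a b y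
    simp only [Matrix.of_apply, e]
  Tsym' i x a b := by
    simp only [Matrix.of_apply]
    exact pd_comm ((cd1 h5 b).of_le (by norm_cast)) i a x
  Usym i j x a b := by
    have e : CM.pd a (CM.pd b V) = CM.pd b (CM.pd a V) := funext fun y => pd_comm (c2V h5) a b y
    simp only [Matrix.of_apply, e]
  Usym' i j x a b := by
    simp only [Matrix.of_apply]
    exact pd_comm ((cd2 h5 a b).of_le (by norm_cast)) j i x
  Usym'' i j x a b := by
    simp only [Matrix.of_apply]
    have e1 : CM.pd i (CM.pd a (CM.pd b V)) = CM.pd a (CM.pd i (CM.pd b V)) :=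
      funext fun y => pd_comm ((cd1 h5 b).of_le (by norm_cast)) i a y
    have e2 : CM.pd j (CM.pd i (CM.pd b V)) = CM.pd i (CM.pd j (CM.pd b V)) :=
      funext fun y => pd_comm ((cd1 h5 b).of_le (by norm_cast)) j i y
    rw [e1, pd_comm ((cd2 h5 i b).of_le (by norm_cast)) j a x, e2]
  dW i := PD_pd ((contDiff_WW h5 ha hV).differentiable (by norm_num)) i
  cW := (contDiff_WW h5 ha hV).continuous
  W1_eq k x := pd_WW h5 ha hV k x
  W2_eq k l x := rfl

include h5 ha hV in
theorem vjet_W2 (x : E n) : (vjet h5 ha hV).W2 x = hess (WW V) x := by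
  ext k l
  have h2 : ContDiff ℝ (2 : ℕ) (pd k (WW V)) :=
    contDiff_pd (k := 2) (by exact_mod_cast contDiff_WW h5 ha hV) k
  have h1 := pd_of_PD (h2.differentiable (by norm_num)) ((vjet h5 ha hV).dW1 k l)
  have h3 : hess (WW V) x k l = hess (WW V) x l k :=
    hess_symm ((contDiff_WW h5 ha hV).of_le (by norm_cast)) x k l
  rw [h3]
  exact (congrFun h1 x).symm

end MM92
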