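import Pool.Agent.Helper63.MM.Base
import Pool.Agent.Helper83.MM.StmtsB8

/-!
# Project MM: from the variance inequality of block B7 to the input of block B8   [helper92]
-/

open MeasureTheory Filter Topology
open scoped ContDiff

namespace MM92

open CM CM.H63

variable {n : ℕ}

theorem pd_pd_eq {f : E n → ℝ} (hf : ContDiff ℝ 2 f) (i j : Fin n) (x : E n) :
    pd i (pd j f) x = fderiv ℝ (fderiv ℝ f) x (EuclideanSpace.single i 1)
      (EuclideanSpace.single j 1) := by
  unfold pd
  have h1 : Differentiable ℝ (fderiv ℝ f) :=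
    (hf.fderiv_right (m := 1) (by norm_num)).differentiable (by norm_num)
  have := ((h1 x).hasFDerivAt.clm_apply
    (hasFDerivAt_const (EuclideanSpace.single j (1 : ℝ) : E n) x)).fderiv
  rw [this]
  simp

theorem bilin_sum (B : E n →L[ℝ] E n →L[ℝ] ℝ) (v : E n) :
    ∑ i, ∑ j, v i * B (EuclideanSpace.single i 1) (EuclideanSpace.single j 1) * v j = B v v := by
  have h := congrArg (fun z => B z v) (eq_sum_single v)
  simp only [map_sum, map_smul, FunLike.coe_sum, Finset.sum_apply, FunLike.coe_smul,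
    Pi.smul_apply, smul_eq_mul] at h
  rw [h]
  refine Finset.sum_congr rfl fun i _ => ?_
  have h2 := congrArg (fun z => B (EuclideanSpace.single i 1) z) (eq_sum_single v)
  simp only [map_sum, map_smul, smul_eq_mul] at h2
  rw [h2, Finset.mul_sum]
  exact Finset.sum_congr rfl fun j _ => by ring

theorem quad_hess {f : E n → ℝ} (hf : ContDiff ℝ 2 f) (x v : E n) :
    ∑ i, ∑ j, v i * hess f x i j * v j = fderiv ℝ (fderiv ℝ f) x v v := by
  rw [← bilin_sum]
  refine Finset.sum_congr rfl fun i _ => Finset.sum_congr rfl fun j _ => ?_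
  unfold hess
  rw [Matrix.of_apply, pd_pd_eq hf]

theorem snd_nonneg_of_convex {f : E n → ℝ} (hf : ContDiff ℝ 2 f)
    (hc : ConvexOn ℝ Set.univ f) (x v : E n) : 0 ≤ fderiv ℝ (fderiv ℝ f) x v v := by
  have hd : Differentiable ℝ f := hf.differentiable (by norm_num)
  have hd1 : Differentiable ℝ (fderiv ℝ f) :=
    (hf.fderiv_right (m := 1) (by norm_num)).differentiable (by norm_num)
  have hl : ∀ t : ℝ, HasDerivAt (fun s : ℝ => x + s • v) v t := by
    intro t
    simpa using ((hasDerivAt_id t).smul_const v).const_add x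
  have hg : ∀ t : ℝ, HasDerivAt (fun s : ℝ => f (x + s • v)) (fderiv ℝ f (x + t • v) v) t := by
    intro t
    exact (hd _).hasFDerivAt.comp_hasDerivAt t (hl t)
  have hconv : ConvexOn ℝ Set.univ (fun s : ℝ => f (x + s • v)) := by
    refine ⟨convex_univ, fun s _ t _ a b ha hb hab => ?_⟩
    have h := hc.2 (Set.mem_univ (x + s • v)) (Set.mem_univ (x + t • v)) ha hb hab
    have e : x + (a • s + b • t) • v = a • (x + s • v) + b • (x + t • v) := by
      have hx : x = (a + b) • x := by rw [hab, one_smul]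
      simp only [smul_add, add_smul, smul_smul, smul_eq_mul]
      nth_rewrite 1 [hx]
      rw [add_smul]
      abel
    simp only
    rw [e]
    exact h
  have hmono : Monotone (deriv (fun s : ℝ => f (x + s • v))) := by
    have := hconv.monotoneOn_deriv fun t _ => (hg t).differentiableAt
    exact monotoneOn_univ.1 this
  have hde : deriv (fun s : ℝ => f (x + s • v)) = fun t => fderiv ℝ f (x + t • v) v :=
    funext fun t => (hg t).deriv
  rw [hde] at hmono
  have h2 : HasDerivAt (fun t : ℝ => fderiv ℝ f (x + t • v) v)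
      (fderiv ℝ (fderiv ℝ f) (x + (0 : ℝ) • v) v v) 0 := by
    have h3 := (hd1 (x + (0 : ℝ) • v)).hasFDerivAt.comp_hasDerivAt (0 : ℝ) (hl 0)
    have h4 := h3.clm_apply (hasDerivAt_const (0 : ℝ) v)
    simpa using h4
  have h5 := h2.nonneg_of_monotone hmono
  simpa using h5

/-- smooth and constant outside of a ball -/
def EC (f : E n → ℝ) : Prop := ContDiff ℝ ∞ f ∧ ∃ R b : ℝ, ∀ x, R ≤ ‖x‖ → f x = b

theorem EC.pd {f : E n → ℝ} (h : EC f) (i : Fin n) : EC (CM.pd i f) := by
  obtain ⟨hf, R, b, hb⟩ := h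
  refine ⟨?_, R + 1, 0, fun x hx => ?_⟩
  · unfold CM.pd
    exact (hf.fderiv_right (m := ∞) (by norm_cast)).clm_apply contDiff_const
  · unfold CM.pd
    have h1 : f =ᶠ[𝓝 x] fun _ => b := by
      have ho : IsOpen {y : E n | R < ‖y‖} := isOpen_lt continuous_const continuous_norm
      have hx' : x ∈ {y : E n | R < ‖y‖} := by
        show R < ‖x‖
        linarith
      filter_upwards [ho.mem_nhds hx'] with y hy
      exact hb y (le_of_lt hy)
    rw [h1.fderiv_eq]
    simp

theorem EC.pdl {f : E n → ℝ} (h : EC f) : ∀ l : List (Fin n), EC (CM.pdl l f)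
  | [] => h
  | i :: l => (EC.pdl h l).pd i

theorem EC.H0 {f : E n → ℝ} (h : EC f) : ∃ K, 0 ≤ K ∧ CM.H0 K f := by
  obtain ⟨hf, R, b, hb⟩ := h
  set g : E n → ℝ := fun x => f x - b with hg
  have hgs : ContDiff ℝ ∞ g := hf.sub contDiff_const
  have hgc : HasCompactSupport g := by
    refine HasCompactSupport.of_support_subset_isCompact (isCompact_closedBall (0 : E n) R) ?_
    intro x hx
    rw [mem_closedBall_zero_iff]
    by_contra hn
    apply hx
    simp only [hg]
    rw [hb x (by linarith [not_le.1 hn]), sub_self]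
  obtain ⟨M, hM⟩ := hgc.exists_bound_of_continuous hgs.continuous
  obtain ⟨L, hL⟩ := ContDiff.lipschitzWith_of_hasCompactSupport (𝕂 := ℝ) hgc hgs (by simp)
  have hM0 : 0 ≤ M := (norm_nonneg _).trans (hM 0)
  refine ⟨(M + |b|) + (2 * M + L), by positivity, fun x => ?_, fun x y => ?_⟩
  · have h1 := hM x
    rw [Real.norm_eq_abs] at h1
    have h2 : f x = g x + b := by simp only [hg]; ring
    have h3 : |f x| ≤ |g x| + |b| := by rw [h2]; exact abs_add_le _ _
    have h4 : (0 : ℝ) ≤ L := L.2
    linarith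
  · have h1 := hM x
    have h2 := hM y
    rw [Real.norm_eq_abs] at h1 h2
    have h3 : |g x - g y| ≤ L * dist x y := by
      have := hL.dist_le_mul x y
      rwa [Real.dist_eq] at this
    have h4 : f x - f y = g x - g y := by simp only [hg]; ring
    rw [h4]
    have hL0 : (0 : ℝ) ≤ L := L.2
    have hd := dist_nonneg (x := x) (y := y)
    rcases le_total (dist x y) 1 with h5 | h5
    · have h6 : dist x y ≤ Real.sqrt (dist x y) := by
        rw [Real.le_sqrt hd hd]
        nlinarith
      calc |g x - g y| ≤ L * dist x y := h3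
        _ ≤ L * Real.sqrt (dist x y) := by gcongr
        _ ≤ ((M + |b|) + (2 * M + L)) * Real.sqrt (dist x y) := by
          apply mul_le_mul_of_nonneg_right _ (Real.sqrt_nonneg _)
          have := abs_nonneg b
          linarith
    · have h6 : 1 ≤ Real.sqrt (dist x y) := by
        rw [Real.one_le_sqrt]
        exact h5
      have h7 : |g x - g y| ≤ 2 * M := by
        have := abs_sub (g x) (g y)
        linarith
      calc |g x - g y| ≤ 2 * M := h7
        _ ≤ (M + |b|) + (2 * M + L) := by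
          have := abs_nonneg b
          linarith
        _ ≤ ((M + |b|) + (2 * M + L)) * Real.sqrt (dist x y) := by
          have h8 : 0 ≤ (M + |b|) + (2 * M + L) := by positivity
          nlinarith

theorem H0_mono {K K' : ℝ} (h : K ≤ K') {f : E n → ℝ} (hf : CM.H0 K f) : CM.H0 K' f :=
  ⟨fun x => (hf.1 x).trans h, fun x y => (hf.2 x y).trans
    (mul_le_mul_of_nonneg_right h (Real.sqrt_nonneg _))⟩

theorem EC.HB {f : E n → ℝ} (h : EC f) (k : ℕ) : ∃ K, 1 ≤ K ∧ CM.HB k K f := by
  classical
  choose K hK0 hK using fun l : List (Fin n) => (EC.pdl h l).H0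
  have hfin := List.finite_length_le (Fin n) k
  refine ⟨1 + ∑ l ∈ hfin.toFinset, K l, ?_, ?_, fun l hl => ?_⟩
  · have : 0 ≤ ∑ l ∈ hfin.toFinset, K l := Finset.sum_nonneg fun l _ => hK0 l
    linarith
  · exact h.1.of_le (by exact_mod_cast le_top)
  · refine H0_mono ?_ (hK l)
    have h1 : K l ≤ ∑ l ∈ hfin.toFinset, K l :=
      Finset.single_le_sum (f := K) (fun l _ => hK0 l) (by
        rw [Set.Finite.mem_toFinset]
        exact hl)
    linarith

theorem contDiff_qn : ContDiff ℝ ∞ (qn : E n → ℝ) := by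
  unfold qn
  exact (contDiff_norm_sq ℝ).div_const 2

theorem fderiv_qn (x : E n) : fderiv ℝ (qn : E n → ℝ) x = innerSL ℝ x := by
  have h : HasFDerivAt (fun y : E n => ‖y‖ ^ 2) (2 • (innerSL ℝ x)) x :=
    (hasStrictFDerivAt_norm_sq x).hasFDerivAt
  have h2 := h.const_mul (1 / 2 : ℝ)
  have e : (qn : E n → ℝ) = fun y => 1 / 2 * ‖y‖ ^ 2 := by
    funext y
    unfold qn
    ring
  rw [e, h2.fderiv]
  ext v
  simp

theorem snd_qn (x v : E n) : fderiv ℝ (fderiv ℝ (qn : E n → ℝ)) x v v = ‖v‖ ^ 2 := by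
  have e : fderiv ℝ (qn : E n → ℝ) = fun y => innerSL ℝ y := funext fderiv_qn
  rw [e]
  have h : HasFDerivAt (fun y : E n => innerSL ℝ y) (innerSL ℝ : E n →L[ℝ] E n →L[ℝ] ℝ) x :=
    (innerSL ℝ : E n →L[ℝ] E n →L[ℝ] ℝ).hasFDerivAt
  rw [h.fderiv]
  exact real_inner_self_eq_norm_sq v

/-- the adapter -/
theorem st_star (hSTAR : CM.ST_STAR) : Pool.Agent.Helper83.MM.ST_STAR := by
  intro k N Ψ c R b hc hsm hev hconv hfar hlo σ
  set F : E k → ℝ := fun x => Pool.Agent.Helper83.MM.SS Ψ x - qn x with hF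
  have hSS : ContDiff ℝ ∞ (Pool.Agent.Helper83.MM.SS Ψ) := by
    unfold Pool.Agent.Helper83.MM.SS
    exact ContDiff.sum fun i _ => hsm i
  have h2 : ∀ i, ContDiff ℝ 2 (Ψ i) := fun i => (hsm i).of_le (by norm_cast)
  have hSS2 : ContDiff ℝ 2 (Pool.Agent.Helper83.MM.SS Ψ) := hSS.of_le (by norm_cast)
  have hqn2 : ContDiff ℝ 2 (qn : E k → ℝ) := contDiff_qn.of_le (by norm_cast)
  have hEC : EC F := by
    refine ⟨hSS.sub contDiff_qn, R, b, fun x hx => ?_⟩
    simp only [hF, hfar x hx, qn]
    ring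
  obtain ⟨K, hK1, hK⟩ := hEC.HB 5
  have hF2 : ContDiff ℝ 2 F := hSS2.sub hqn2
  have hsplit : ∀ x v : E k, fderiv ℝ (fderiv ℝ F) x v v =
      fderiv ℝ (fderiv ℝ (Pool.Agent.Helper83.MM.SS Ψ)) x v v - ‖v‖ ^ 2 := by
    intro x v
    have d1 : Differentiable ℝ (Pool.Agent.Helper83.MM.SS Ψ) := hSS2.differentiable (by norm_num)
    have d2 : Differentiable ℝ (qn : E k → ℝ) := hqn2.differentiable (by norm_num)
    have e1 : fderiv ℝ F = fun y => fderiv ℝ (Pool.Agent.Helper83.MM.SS Ψ) y - fderiv ℝ qn y :=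
      funext fun y => fderiv_fun_sub (d1 y) (d2 y)
    have d3 : Differentiable ℝ (fderiv ℝ (Pool.Agent.Helper83.MM.SS Ψ)) :=
      (hSS2.fderiv_right (m := 1) (by norm_num)).differentiable (by norm_num)
    have d4 : Differentiable ℝ (fderiv ℝ (qn : E k → ℝ)) :=
      (hqn2.fderiv_right (m := 1) (by norm_num)).differentiable (by norm_num)
    rw [e1, fderiv_fun_sub (d3 x) (d4 x), ← snd_qn x v]
    rfl
  have hsum : ∀ x v : E k, fderiv ℝ (fderiv ℝ (Pool.Agent.Helper83.MM.SS Ψ)) x v v =
      ∑ i, fderiv ℝ (fderiv ℝ (Ψ i)) x v v := by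
    intro x v
    have d1 : ∀ i, Differentiable ℝ (Ψ i) := fun i => (h2 i).differentiable (by norm_num)
    have e1 : fderiv ℝ (Pool.Agent.Helper83.MM.SS Ψ) = fun y => ∑ i, fderiv ℝ (Ψ i) y :=
      funext fun y => fderiv_fun_sum fun i _ => d1 i y
    have d3 : ∀ i, Differentiable ℝ (fderiv ℝ (Ψ i)) := fun i =>
      ((h2 i).fderiv_right (m := 1) (by norm_num)).differentiable (by norm_num)
    rw [e1, fderiv_fun_sum fun i _ => d3 i x]
    simp
  have hFOK : FOK (min c 1) K (max R 1) F := by
    refine ⟨lt_min hc one_pos, min_le_right _ _, hK1, le_max_right _ _, ?_, hK, ?_, ?_⟩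
    · intro x
      simp only [hF, Pool.Agent.Helper83.MM.SS, qn, norm_neg, hev]
    · intro x y hx hy
      obtain ⟨-, -⟩ := hEC
      have e : ∀ z : E k, max R 1 ≤ ‖z‖ → F z = b := by
        intro z hz
        simp only [hF, hfar z ((le_max_left _ _).trans hz), qn]
        ring
      rw [e x hx, e y hy]
    · intro x v
      set v' : E k := WithLp.toLp 2 v with hv'
      have hv : ∀ i, v i = v' i := fun i => rfl
      have hn : ‖v'‖ ^ 2 = ∑ i, v i ^ 2 := by
        rw [EuclideanSpace.norm_sq_eq]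
        exact Finset.sum_congr rfl fun i _ => by rw [Real.norm_eq_abs, sq_abs, hv]
      have h3 : ∑ i, ∑ j, v i * (1 + hess F x) i j * v j =
          ∑ i, v i ^ 2 + ∑ i, ∑ j, v i * hess F x i j * v j := by
        simp only [Matrix.add_apply, mul_add, add_mul, Finset.sum_add_distrib]
        congr 1
        refine Finset.sum_congr rfl fun i _ => ?_
        simp [Matrix.one_apply]
        ring
      rw [h3]
      have h4 : ∑ i, ∑ j, v i * hess F x i j * v j = fderiv ℝ (fderiv ℝ F) x v' v' :=
        quad_hess hF2 x v'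
      rw [h4, hsplit, hsum, hn]
      have h5 := hlo x v'
      rw [hn] at h5
      have h6 : min c 1 * ∑ i, v i ^ 2 ≤ c * ∑ i, v i ^ 2 :=
        mul_le_mul_of_nonneg_right (min_le_left _ _) (Finset.sum_nonneg fun i _ => sq_nonneg _)
      linarith
  have hpos : ∀ a (x v : E k), 0 ≤ fderiv ℝ (fderiv ℝ (Ψ a)) x v v := fun a x v =>
    snd_nonneg_of_convex (h2 a) (hconv a) x v
  -- bound of the second derivatives
  have hdiag : ∀ a (x : E k) i, fderiv ℝ (fderiv ℝ (Ψ a)) x (EuclideanSpace.single i 1)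
      (EuclideanSpace.single i 1) ≤ 1 + K := by
    intro a x i
    have h3 := hsum x (EuclideanSpace.single i 1)
    have h4 : fderiv ℝ (fderiv ℝ (Ψ a)) x (EuclideanSpace.single i 1)
        (EuclideanSpace.single i 1) ≤
        ∑ b, fderiv ℝ (fderiv ℝ (Ψ b)) x (EuclideanSpace.single i 1)
          (EuclideanSpace.single i 1) :=
      Finset.single_le_sum (f := fun b => fderiv ℝ (fderiv ℝ (Ψ b)) x
        (EuclideanSpace.single i 1) (EuclideanSpace.single i 1))
        (fun b _ => hpos b x _) (Finset.mem_univ a)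
    have h5 := hsplit x (EuclideanSpace.single i 1)
    have h6 : |pd i (pd i F) x| ≤ K := (hK.2 [i, i] (by simp)).1 x
    rw [pd_pd_eq hF2] at h6
    have h7 : ‖(EuclideanSpace.single i (1 : ℝ) : E k)‖ ^ 2 = 1 := by simp
    rw [h7] at h5
    have h8 := le_abs_self (fderiv ℝ (fderiv ℝ F) x (EuclideanSpace.single i 1)
      (EuclideanSpace.single i 1))
    linarith
  have hbd : ∀ a (x : E k) i j, |pd i (pd j (Ψ a)) x| ≤ 1 + K := by
    intro a x i j
    rw [pd_pd_eq (h2 a)]
    set B := fderiv ℝ (fderiv ℝ (Ψ a)) x with hB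
    have hsym : ∀ v w, B v w = B w v := fun v w =>
      ((h2 a).contDiffAt.isSymmSndFDerivAt (by simp)).eq v w
    have p1 := hpos a x (EuclideanSpace.single i 1 + EuclideanSpace.single j 1)
    have p2 := hpos a x (EuclideanSpace.single i 1 - EuclideanSpace.single j 1)
    rw [← hB] at p1 p2
    have d1 := hdiag a x i
    have d2 := hdiag a x j
    rw [← hB] at d1 d2
    have e1 : B (EuclideanSpace.single i 1 + EuclideanSpace.single j 1)
        (EuclideanSpace.single i 1 + EuclideanSpace.single j 1) =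
        B (EuclideanSpace.single i 1) (EuclideanSpace.single i 1) +
        B (EuclideanSpace.single i 1) (EuclideanSpace.single j 1) +
        (B (EuclideanSpace.single j 1) (EuclideanSpace.single i 1) +
        B (EuclideanSpace.single j 1) (EuclideanSpace.single j 1)) := by
      simp only [map_add, add_apply]
      ring
    have e2 : B (EuclideanSpace.single i 1 - EuclideanSpace.single j 1)
        (EuclideanSpace.single i 1 - EuclideanSpace.single j 1) =
        B (EuclideanSpace.single i 1) (EuclideanSpace.single i 1) -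
        B (EuclideanSpace.single i 1) (EuclideanSpace.single j 1) -
        (B (EuclideanSpace.single j 1) (EuclideanSpace.single i 1) -
        B (EuclideanSpace.single j 1) (EuclideanSpace.single j 1)) := by
      simp only [map_sub, sub_apply]
      ring
    rw [e1, hsym (EuclideanSpace.single j 1) (EuclideanSpace.single i 1)] at p1
    rw [e2, hsym (EuclideanSpace.single j 1) (EuclideanSpace.single i 1)] at p2
    rw [abs_le]
    constructor <;> linarith
  have hmain := hSTAR k F ⟨_, _, _, hFOK⟩ N Ψ (1 + K) h2 (fun a x => hev a x)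
    (fun a x v => by
      have h3 : ∑ i, ∑ j, v i * hess (Ψ a) x i j * v j =
        fderiv ℝ (fderiv ℝ (Ψ a)) x (WithLp.toLp 2 v) (WithLp.toLp 2 v) :=
        quad_hess (h2 a) x (WithLp.toLp 2 v)
      rw [h3, zero_mul]
      exact hpos a x _) hbd (fun x => by
      simp only [hF, Pool.Agent.Helper83.MM.SS]
      ring) σ
  have hW : ∀ x : E k, qn x + F x = Pool.Agent.Helper83.MM.SS Ψ x := fun x => by
    simp only [hF]
    ring
  have hD2 : ∀ a (x : E k), eul (Ψ a) x + ∑ i, ∑ j, x i * x j * hess (Ψ a) x i j =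
      Pool.Agent.Helper83.MM.D2 (Ψ a) x := by
    intro a x
    unfold Pool.Agent.Helper83.MM.D2 eul
    rw [← quad_hess (h2 a) x x]
    congr 1
    exact Finset.sum_congr rfl fun i _ => Finset.sum_congr rfl fun j _ => by ring
  unfold Pool.Agent.Helper83.MM.Star Pool.Agent.Helper83.MM.JJ Pool.Agent.Helper83.MM.D1
  simp only [hW, hD2] at hmain
  simp only [one_mul]
  exact hmain

end MM92
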